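import Mathlib

set_option autoImplicit false

namespace Pool.Agent.Results.MP_425159_co.OrderZeroOneModFour

/-- The identity (E): `((xy)x)y = x`. -/
def IdentityE {S : Type*} (mul : S → S → S) : Prop := ∀ x y : S, mul (mul (mul x y) x) y = x

/-- `mul` is a quasigroup operation on `S`. -/
def IsQuasigroup {S : Type*} (mul : S → S → S) : Prop :=
  (∀ a b : S, ∃! x, mul a x = b) ∧ (∀ a b : S, ∃! x, mul x a = b)

theorem result (S : Type*) [Fintype S] (mul : S → S → S) (hq : IsQuasigroup mul)
    (hE : IdentityE mul) : Fintype.card S % 4 = 0 ∨ Fintype.card S % 4 = 1 := by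
  classical
  obtain ⟨hl, hr⟩ := hq
  have hAb : Function.Bijective (fun p : S × S => (mul p.1 p.2, p.2)) := by
    constructor
    · rintro ⟨a, b⟩ ⟨c, d⟩ h
      simp only [Prod.mk.injEq] at h
      obtain ⟨h1, rfl⟩ := h
      have := (hr b (mul a b)).unique rfl h1.symm
      rw [this]
    · rintro ⟨a, b⟩
      obtain ⟨x, hx, _⟩ := hr b a
      exact ⟨(x, b), by simp [hx]⟩
  have hBb : Function.Bijective (fun p : S × S => (p.1, mul p.1 p.2)) := by
    constructor
    · rintro ⟨a, b⟩ ⟨c, d⟩ h
      simp only [Prod.mk.injEq] at h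
      obtain ⟨rfl, h1⟩ := h
      have := (hl a (mul a b)).unique rfl h1.symm
      rw [this]
    · rintro ⟨a, b⟩
      obtain ⟨x, hx, _⟩ := hl a b
      exact ⟨(a, x), by simp [hx]⟩
  set A : Equiv.Perm (S × S) := Equiv.ofBijective _ hAb with hA
  set B : Equiv.Perm (S × S) := Equiv.ofBijective _ hBb with hB
  set C : Equiv.Perm (S × S) := Equiv.prodComm S S with hC
  have hAv : ∀ x y, A (x, y) = (mul x y, y) := fun x y => rfl
  have hBv : ∀ x y, B (x, y) = (x, mul x y) := fun x y => rfl
  have hCv : ∀ x y, C (x, y) = (y, x) := fun x y => rfl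
  have hrel : B = A * C * B * A := by
    ext1 ⟨u, y⟩
    -- put x = u y
    simp only [Equiv.Perm.mul_apply, hAv, hBv, hCv]
    have h1 : mul (mul (mul u y) y) (mul u y) = u := by
      have h2 := hE (mul u y) y
      exact (hr y (mul u y)).unique h2 rfl
    rw [h1]
  have hsign : Equiv.Perm.sign C = 1 := by
    have h1 := congrArg Equiv.Perm.sign hrel
    rw [map_mul, map_mul, map_mul] at h1
    rcases Int.units_eq_one_or (Equiv.Perm.sign A) with h2 | h2 <;>
    rcases Int.units_eq_one_or (Equiv.Perm.sign B) with h3 | h3 <;>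
    rcases Int.units_eq_one_or (Equiv.Perm.sign C) with h4 | h4 <;>
    rw [h2, h3, h4] at h1 <;> first | exact h4 | (exfalso; revert h1; decide)
  have hC2 : C ^ 2 = 1 := by
    ext1 ⟨x, y⟩; rfl
  have : Fact (Nat.Prime 2) := ⟨Nat.prime_two⟩
  have hct := Equiv.Perm.cycleType_of_pow_prime_eq_one hC2
  set k := C.cycleType.card with hk
  have hsum : C.support.card = 2 * k := by
    rw [← Equiv.Perm.sum_cycleType, hct, Multiset.sum_replicate, smul_eq_mul, mul_comm]
  have hsg := Equiv.Perm.sign_of_cycleType C
  rw [hsign, Equiv.Perm.sum_cycleType, hsum, ← hk] at hsg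
  have hkeven : Even k := by
    by_contra hodd
    rw [Nat.not_even_iff_odd] at hodd
    have : Odd (2 * k + k) := by
      obtain ⟨j, hj⟩ := hodd
      exact ⟨3 * j + 1, by omega⟩
    rw [this.neg_one_pow] at hsg
    exact absurd hsg (by decide)
  have hsupp : C.support = Finset.univ.filter (fun p : S × S => p.1 ≠ p.2) := by
    ext ⟨x, y⟩
    rw [Equiv.Perm.mem_support, hCv, Finset.mem_filter]
    simp only [Finset.mem_univ, true_and, ne_eq, Prod.mk.injEq, not_and]
    constructor
    · intro h hxy
      exact h hxy.symm hxy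
    · intro h h1 _
      exact h h1.symm
  have hcard : C.support.card + Fintype.card S = Fintype.card S * Fintype.card S := by
    have h1 : (Finset.univ.filter (fun p : S × S => p.1 = p.2)).card = Fintype.card S := by
      rw [← Finset.card_univ (α := S)]
      symm
      apply Finset.card_bij (fun (x : S) _ => (x, x))
      · intro a _; simp
      · intro a _ b _ h; simpa using h
      · rintro ⟨x, y⟩ h
        simp only [Finset.mem_filter, Finset.mem_univ, true_and] at h
        exact ⟨x, Finset.mem_univ _, by simp [h]⟩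
    have h2 := Finset.card_filter_add_card_filter_not (s := (Finset.univ : Finset (S × S)))
      (fun p => p.1 = p.2)
    rw [h1, Finset.card_univ, Fintype.card_prod] at h2
    rw [hsupp]
    simp only [ne_eq]
    omega
  obtain ⟨j, hj⟩ := hkeven
  set n := Fintype.card S with hn
  have h4 : n * n = 4 * j + n := by omega
  have h5 : (n * n) % 4 = n % 4 := by rw [h4]; omega
  rw [Nat.mul_mod] at h5
  have h7 : n % 4 = 0 ∨ n % 4 = 1 ∨ n % 4 = 2 ∨ n % 4 = 3 := by omega
  rcases h7 with h | h | h | h
  · exact Or.inl h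
  · exact Or.inr h
  · rw [h] at h5; norm_num at h5
  · rw [h] at h5; norm_num at h5

end Pool.Agent.Results.MP_425159_co.OrderZeroOneModFour
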